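import Mathlib

set_option autoImplicit false
set_option maxHeartbeats 400000

namespace Pool.Agent.H223Z.FG

/-- the shift automorphism of the free group on the integers -/
def shiftAut : MulAut (FreeGroup ℤ) := FreeGroup.freeGroupCongr (Equiv.addRight 1)

/-- the action of the integers by shifts -/
def shiftAct : Multiplicative ℤ →* MulAut (FreeGroup ℤ) := zpowersHom _ shiftAut

lemma shiftAut_of (i : ℤ) : shiftAut (FreeGroup.of i) = FreeGroup.of (i + 1) := by
  simp [shiftAut]

lemma shiftAut_inv_of (i : ℤ) : shiftAut⁻¹ (FreeGroup.of i) = FreeGroup.of (i - 1) := by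
  rw [MulAut.inv_apply, MulEquiv.symm_apply_eq, shiftAut_of, sub_add_cancel]

lemma shiftAut_zpow (n : ℤ) : ∀ i : ℤ, (shiftAut ^ n) (FreeGroup.of i) = FreeGroup.of (i + n) := by
  induction n using Int.induction_on with
  | zero => intro i; simp
  | succ n ih =>
    intro i
    rw [zpow_add_one, MulAut.mul_apply, shiftAut_of, ih]
    congr 1; ring
  | pred n ih =>
    intro i
    rw [zpow_sub_one, MulAut.mul_apply, shiftAut_inv_of, ih]
    congr 1; ring

/-- the embedding of the free group on the integers in the free group of rank two -/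
def iota2 : FreeGroup ℤ →* FreeGroup Bool :=
  FreeGroup.lift fun i : ℤ =>
    FreeGroup.of false ^ i * FreeGroup.of true * (FreeGroup.of false ^ i)⁻¹

/-- the map to the semidirect product -/
def piSD : FreeGroup Bool →* FreeGroup ℤ ⋊[shiftAct] Multiplicative ℤ :=
  FreeGroup.lift fun b : Bool =>
    if b then SemidirectProduct.inl (FreeGroup.of 0)
    else SemidirectProduct.inr (Multiplicative.ofAdd 1)

lemma pi_iota : piSD.comp iota2 = SemidirectProduct.inl := by
  refine FreeGroup.ext_hom _ _ fun i => ?_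
  have h1 : piSD (FreeGroup.of false) = SemidirectProduct.inr (Multiplicative.ofAdd 1) := by
    simp [piSD]
  have h2 : piSD (FreeGroup.of true) = SemidirectProduct.inl (FreeGroup.of 0) := by
    simp [piSD]
  rw [MonoidHom.comp_apply, iota2, FreeGroup.lift_apply_of, map_mul, map_mul, map_inv, map_zpow,
    h1, h2, ← map_zpow, ← map_inv, ← SemidirectProduct.inl_aut]
  congr 1
  rw [← ofAdd_zsmul, smul_eq_mul, mul_one, shiftAct, zpowersHom_apply, toAdd_ofAdd, shiftAut_zpow,
    zero_add]

lemma iota2_inj : Function.Injective iota2 := by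
  have : Function.Injective (piSD.comp iota2) := by
    rw [pi_iota]; exact SemidirectProduct.inl_injective
  rw [MonoidHom.coe_comp] at this
  exact this.of_comp

lemma exists_letters {α : Type} (w : FreeGroup α) :
    ∃ s : Finset α, ∀ h : α → α, (∀ a ∈ s, h a = a) → FreeGroup.map h w = w := by
  classical
  induction w using FreeGroup.induction_on with
  | C1 => exact ⟨∅, fun h _ => map_one _⟩
  | of a => exact ⟨{a}, fun h hh => by rw [FreeGroup.map.of, hh a (Finset.mem_singleton_self a)]⟩
  | inv_of a ih =>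
    obtain ⟨s, hs⟩ := ih
    exact ⟨s, fun h hh => by rw [map_inv, hs h hh]⟩
  | mul x y hx hy =>
    obtain ⟨s, hs⟩ := hx
    obtain ⟨t, ht⟩ := hy
    refine ⟨s ∪ t, fun h hh => ?_⟩
    rw [map_mul, hs h fun a ha => hh a (Finset.mem_union_left _ ha),
      ht h fun a ha => hh a (Finset.mem_union_right _ ha)]

theorem exists_emb {α : Type} (S : Finset (FreeGroup α)) :
    ∃ ι : FreeGroup α →* FreeGroup Bool, Set.InjOn ι S := by
  classical
  choose L hL using fun w : FreeGroup α => exists_letters w
  let U : Finset α := S.biUnion L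
  rcases isEmpty_or_nonempty α with hα | hα
  · refine ⟨1, fun x _ y _ _ => Subsingleton.elim _ _⟩
  obtain ⟨f, hf⟩ : ∃ f : α → ℤ, Set.InjOn f U := by
    obtain ⟨f, hf⟩ := Set.countable_iff_exists_injOn.1 U.countable_toSet
    exact ⟨fun a => (f a : ℤ), fun a ha b hb h => hf ha hb (Int.natCast_inj.1 h)⟩
  let g : ℤ → α := Function.invFunOn f U
  have hg : ∀ a ∈ U, g (f a) = a := fun a ha => hf.leftInvOn_invFunOn ha
  refine ⟨iota2.comp (FreeGroup.map f), fun x hx y hy hxy => ?_⟩
  have h1 : FreeGroup.map f x = FreeGroup.map f y := iota2_inj hxy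
  have h2 : ∀ w ∈ S, FreeGroup.map g (FreeGroup.map f w) = w := by
    intro w hw
    rw [FreeGroup.map.comp]
    exact hL w _ fun a ha => hg a (Finset.mem_biUnion.2 ⟨w, hw, ha⟩)
  rw [← h2 x hx, ← h2 y hy, h1]

end Pool.Agent.H223Z.FG
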