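import Pool.Agent.H223Z.FG.Fix
import Pool.Agent.H223Z.FG.Emb

set_option autoImplicit false
set_option maxHeartbeats 400000

namespace Pool.Agent.H223Z.FG

variable {k : Type} [Field k] {α : Type}

lemma theta_mul (κ : FreeGroup α → G2) (hκ : ∀ a b, κ (a * b) = κ a * κ b)
    (x y : MonoidAlgebra k (FreeGroup α)) :
    MonoidAlgebra.mapDomainLinearMap k k κ (x * y) =
      MonoidAlgebra.mapDomainLinearMap k k κ x * MonoidAlgebra.mapDomainLinearMap k k κ y := by
  induction x using MonoidAlgebra.induction_linear with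
  | zero => simp
  | add x x' hx hx' => rw [add_mul, map_add, map_add, hx, hx', add_mul]
  | single a r =>
    induction y using MonoidAlgebra.induction_linear with
    | zero => simp
    | add y y' hy hy' => rw [mul_add, map_add, map_add, hy, hy', mul_add]
    | single b s =>
      rw [MonoidAlgebra.single_mul_single, MonoidAlgebra.mapDomainLinearMap_single,
        MonoidAlgebra.mapDomainLinearMap_single, MonoidAlgebra.mapDomainLinearMap_single,
        MonoidAlgebra.single_mul_single, hκ]

lemma theta_mul' (κ : FreeGroup α → G2) (hκ : ∀ a b, κ (a * b) = κ b * κ a)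
    (x y : MonoidAlgebra k (FreeGroup α)) :
    MonoidAlgebra.mapDomainLinearMap k k κ (x * y) =
      MonoidAlgebra.mapDomainLinearMap k k κ y * MonoidAlgebra.mapDomainLinearMap k k κ x := by
  induction x using MonoidAlgebra.induction_linear with
  | zero => simp
  | add x x' hx hx' => rw [add_mul, map_add, map_add, hx, hx', mul_add]
  | single a r =>
    induction y using MonoidAlgebra.induction_linear with
    | zero => simp
    | add y y' hy hy' => rw [mul_add, map_add, map_add, hy, hy', add_mul]
    | single b s =>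
      rw [MonoidAlgebra.single_mul_single, MonoidAlgebra.mapDomainLinearMap_single,
        MonoidAlgebra.mapDomainLinearMap_single, MonoidAlgebra.mapDomainLinearMap_single,
        MonoidAlgebra.single_mul_single, hκ, mul_comm r s]

lemma final_of (θ : MonoidAlgebra k (FreeGroup α) →ₗ[k] A k) (h1 : θ 1 = 1)
    (hmul : ∀ x y, θ (x * y) = θ x * θ y ∨ θ (x * y) = θ y * θ x)
    (s : Finset (MonoidAlgebra k (FreeGroup α))) (r0 : MonoidAlgebra k (FreeGroup α))
    (hr0 : r0 ∈ s) (z1 : Pt) (hz1 : rho k (θ r0) (Finsupp.single z1 1) ∉ Fle k z1) :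
    ∃ f : Algebra.adjoin k (s : Set (MonoidAlgebra k (FreeGroup α))) →ₐ[k] LaurentPolynomial k,
      f.range ≠ ⊥ := by
  classical
  obtain ⟨z, hz, r, hr, hr'⟩ := exists_fix (s.image θ) (θ r0) (Finset.mem_image_of_mem _ hr0) z1 hz1
  have hsc : ∀ c : k, rho k (θ (algebraMap k _ c)) (Finsupp.single z 1) =
      (algebraMap k (LaurentPolynomial k) c) • (Finsupp.single z 1 : V k) := by
    intro c
    rw [Algebra.algebraMap_eq_smul_one, map_smul, h1, ← Algebra.algebraMap_eq_smul_one,
      AlgHom.commutes, Module.algebraMap_end_apply, algebraMap_smul]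
  have hall : ∀ x ∈ Algebra.adjoin k (s : Set (MonoidAlgebra k (FreeGroup α))),
      rho k (θ x) (Finsupp.single z 1) ∈ Fle k z := by
    intro x hx
    induction hx using Algebra.adjoin_induction with
    | mem x hx => exact hz _ (Finset.mem_image_of_mem _ hx)
    | algebraMap c =>
      rw [hsc]
      exact Submodule.smul_mem _ _ (single_mem_Fle le_rfl 1)
    | add x y _ _ hx hy =>
      rw [map_add, map_add, LinearMap.add_apply]
      exact Submodule.add_mem _ hx hy
    | mul x y _ _ hx hy =>
      rcases hmul x y with h | h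
      · rw [h]; exact (mul_at hx hy).1
      · rw [h]; exact (mul_at hy hx).1
  let f : Algebra.adjoin k (s : Set (MonoidAlgebra k (FreeGroup α))) →ₐ[k] LaurentPolynomial k :=
    { toFun := fun x => rho k (θ x.1) (Finsupp.single z 1) z
      map_one' := by
        rw [OneMemClass.coe_one, h1, map_one, Module.End.one_apply, Finsupp.single_eq_same]
      map_mul' := by
        intro x y
        rw [MulMemClass.coe_mul]
        rcases hmul x.1 y.1 with h | h
        · rw [h]; exact (mul_at (hall _ x.2) (hall _ y.2)).2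
        · rw [h, mul_comm]; exact (mul_at (hall _ y.2) (hall _ x.2)).2
      map_zero' := by
        rw [ZeroMemClass.coe_zero, map_zero, map_zero, LinearMap.zero_apply, Finsupp.zero_apply]
      map_add' := by
        intro x y
        rw [AddMemClass.coe_add, map_add, map_add, LinearMap.add_apply, Finsupp.add_apply]
      commutes' := by
        intro c
        rw [Subalgebra.coe_algebraMap, hsc, Finsupp.smul_apply, Finsupp.single_eq_same,
          smul_eq_mul, mul_one] }
  refine ⟨f, fun hf => ?_⟩
  obtain ⟨x, hx, rfl⟩ := Finset.mem_image.1 hr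
  have hm : f ⟨x, Algebra.subset_adjoin hx⟩ ∈ f.range := ⟨_, rfl⟩
  rw [hf, Algebra.mem_bot] at hm
  obtain ⟨c, hc⟩ := hm
  exact hr' c hc.symm

theorem main (R : Subalgebra k (MonoidAlgebra k (FreeGroup α))) (hR : R.FG) (hne : R ≠ ⊥) :
    ∃ f : R →ₐ[k] LaurentPolynomial k, f.range ≠ ⊥ := by
  classical
  obtain ⟨s, rfl⟩ := hR
  obtain ⟨r0, hr0, g0, hg0, hc⟩ : ∃ r0 ∈ s, ∃ g0 : FreeGroup α, g0 ≠ 1 ∧ r0.coeff g0 ≠ 0 := by
    by_contra hcon
    push Not at hcon
    apply hne
    rw [eq_bot_iff, Algebra.adjoin_le_iff]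
    intro r hr
    rw [SetLike.mem_coe, Algebra.mem_bot]
    refine ⟨r.coeff 1, ?_⟩
    ext g
    by_cases hg : g = 1
    · subst hg
      simp
    · rw [hcon r hr g hg]
      simp [Ne.symm hg]
  obtain ⟨ι, hι⟩ := exists_emb (insert 1 r0.coeff.support)
  have hg0' : g0 ∈ ((insert 1 r0.coeff.support : Finset (FreeGroup α)) : Set (FreeGroup α)) := by
    rw [Finset.mem_coe]
    exact Finset.mem_insert_of_mem (Finsupp.mem_support_iff.2 hc)
  have hsub : (r0.coeff.support : Set (FreeGroup α)) ⊆
      ((insert 1 r0.coeff.support : Finset (FreeGroup α)) : Set (FreeGroup α)) := by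
    intro g hg
    rw [Finset.mem_coe]
    exact Finset.mem_insert_of_mem hg
  have hι0 : ι g0 ≠ 1 := by
    intro h
    apply hg0
    refine hι hg0' (Finset.mem_coe.2 (Finset.mem_insert_self _ _)) ?_
    rw [h, map_one]
  have hι' : Set.InjOn (fun g => (ι g)⁻¹)
      ((insert 1 r0.coeff.support : Finset (FreeGroup α)) : Set (FreeGroup α)) :=
    fun x hx y hy h => hι hx hy (inv_injective h)
  have e1 : (MonoidAlgebra.mapDomainLinearMap k k ι r0).coeff (ι g0) ≠ 0 := by
    rw [MonoidAlgebra.coeff_mapDomainLinearMap, Finsupp.mapDomain_apply' _ _ hsub hι hg0']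
    exact hc
  have e2 : (MonoidAlgebra.mapDomainLinearMap k k (fun g => (ι g)⁻¹) r0).coeff (ι g0)⁻¹ ≠ 0 := by
    rw [MonoidAlgebra.coeff_mapDomainLinearMap, Finsupp.mapDomain_apply' _ _ hsub hι' hg0']
    exact hc
  rcases exists_start _ _ (ι g0) hι0 e1 e2 with ⟨p, hp⟩ | ⟨p, hp⟩
  · refine final_of _ ?_ (fun x y => Or.inl (theta_mul _ (map_mul ι) x y)) s r0 hr0 p hp
    rw [MonoidAlgebra.one_def, MonoidAlgebra.mapDomainLinearMap_single, map_one,
      MonoidAlgebra.one_def]
  · refine final_of _ ?_ (fun x y => Or.inr (theta_mul' _ (fun a b => ?_) x y)) s r0 hr0 p hp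
    · rw [MonoidAlgebra.one_def, MonoidAlgebra.mapDomainLinearMap_single, map_one, inv_one,
        MonoidAlgebra.one_def]
    · rw [map_mul, mul_inv_rev]

end Pool.Agent.H223Z.FG
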