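import Pool.Agent.H223Z.FG.Mono

set_option autoImplicit false
set_option maxHeartbeats 400000

namespace Pool.Agent.H223Z.FG

open LaurentPolynomial

variable {k : Type} [Field k]

lemma sub_mem_Flt {z : Pt} {v : V k} (h : v ∈ Fle k z) :
    v - v z • (Finsupp.single z 1 : V k) ∈ Flt k z := by
  rw [mem_Flt]
  intro p hp
  by_cases hpz : p = z
  · subst hpz
    simp at hp
  · rw [Finsupp.sub_apply, Finsupp.smul_apply, Finsupp.single_eq_of_ne hpz, smul_zero,
      sub_zero] at hp
    exact lt_of_le_of_ne (mem_Fle.1 h p hp) hpz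

lemma Flt_apply {z : Pt} {v : V k} (h : v ∈ Flt k z) : v z = 0 := by
  by_contra hc
  exact lt_irrefl _ (mem_Flt.1 h z hc)

lemma mul_at {z : Pt} {a b : A k} (ha : rho k a (Finsupp.single z 1) ∈ Fle k z)
    (hb : rho k b (Finsupp.single z 1) ∈ Fle k z) :
    rho k (a * b) (Finsupp.single z 1) ∈ Fle k z ∧
      rho k (a * b) (Finsupp.single z 1) z =
        rho k a (Finsupp.single z 1) z * rho k b (Finsupp.single z 1) z := by
  have h1 := mono_all z z a ha _ (sub_mem_Flt hb)
  rw [map_sub, map_smul] at h1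
  rw [map_mul, Module.End.mul_apply]
  set x := rho k a (rho k b (Finsupp.single z 1))
  set c := rho k b (Finsupp.single z 1) z
  set y := rho k a (Finsupp.single z 1)
  refine ⟨?_, ?_⟩
  · have : x = (x - c • y) + c • y := by abel
    rw [this]
    exact Submodule.add_mem _ (Flt_le_Fle z h1) (Submodule.smul_mem _ _ ha)
  · have := Flt_apply h1
    rw [Finsupp.sub_apply, Finsupp.smul_apply, smul_eq_mul, sub_eq_zero] at this
    rw [this, mul_comm]

lemma rho_sub_scalar (r : A k) (α : k) (v : V k) :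
    rho k (r - algebraMap k (A k) α) v = rho k r v - (algebraMap k (LaurentPolynomial k) α) • v := by
  rw [map_sub, AlgHom.commutes, LinearMap.sub_apply, Module.algebraMap_end_apply,
    algebraMap_smul]

theorem exists_fix (G : Finset (A k)) (r0 : A k) (hr0 : r0 ∈ G) (z1 : Pt)
    (h1 : rho k r0 (Finsupp.single z1 1) ∉ Fle k z1) :
    ∃ z : Pt, (∀ r ∈ G, rho k r (Finsupp.single z 1) ∈ Fle k z) ∧
      ∃ r ∈ G, ∀ α : k, rho k r (Finsupp.single z 1) z ≠ algebraMap k _ α := by
  classical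
  rw [mem_Fle] at h1
  push Not at h1
  obtain ⟨p1, hp1, hp1'⟩ := h1
  let D : Set Pt := {z | z1 < z ∧ ∀ r ∈ G, rho k r (Finsupp.single z 1) ∈ Fle k z}
  have hD : D.Nonempty :=
    ⟨top, hp1'.trans_le (le_top' p1), fun r _ => mem_Fle.2 fun p _ => le_top' p⟩
  obtain ⟨z0, hz0, hz0'⟩ := exists_glb D hD z1 fun z hz => hz.1
  have ha : z1 < z0 := by
    refine hp1'.trans_le (hz0' p1 fun z hz => le_of_lt ?_)
    exact mem_Flt.1 (mono_all z z r0 (hz.2 r0 hr0) _ (single_mem_Flt hz.1 1)) p1 hp1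
  have hb : ∀ r ∈ G, rho k r (Finsupp.single z0 1) ∈ Fle k z0 := by
    intro r hr
    refine mem_Fle.2 fun p hp => hz0' p fun z hz => ?_
    rcases (hz0 z hz).lt_or_eq with h | h
    · exact le_of_lt (mem_Flt.1 (mono_all z z r (hz.2 r hr) _ (single_mem_Flt h 1)) p hp)
    · rw [h] at hp
      exact mem_Fle.1 (hz.2 r hr) p hp
  refine ⟨z0, hb, ?_⟩
  by_contra hc
  push Not at hc
  choose! α hα using hc
  let T : Finset Pt := insert z1 (G.biUnion fun r =>
    (rho k (r - algebraMap k (A k) (α r)) (Finsupp.single z0 1)).support)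
  have hT : T.Nonempty := Finset.insert_nonempty _ _
  set z2 := T.max' hT with hz2
  have hlt : ∀ p ∈ T, p < z0 := by
    intro p hp
    rcases Finset.mem_insert.1 hp with rfl | hp
    · exact ha
    · obtain ⟨r, hr, hp⟩ := Finset.mem_biUnion.1 hp
      have h2 := sub_mem_Flt (hb r hr)
      rw [hα r hr, ← rho_sub_scalar] at h2
      exact mem_Flt.1 h2 p (Finsupp.mem_support_iff.1 hp)
  have h20 : z2 < z0 := hlt _ (T.max'_mem hT)
  have h3 : ∀ r ∈ G, ∀ v ∈ Flt k z0, rho k (r - algebraMap k (A k) (α r)) v ∈ Flt k z2 := by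
    intro r hr
    refine mono_all z0 z2 _ (mem_Fle.2 fun p hp => T.le_max' p ?_)
    exact Finset.mem_insert_of_mem (Finset.mem_biUnion.2 ⟨r, hr, Finsupp.mem_support_iff.2 hp⟩)
  have h12 : z1 < z2 := by
    refine hp1'.trans (mem_Flt.1 (h3 r0 hr0 _ (single_mem_Flt ha 1)) p1 ?_)
    rwa [rho_sub_scalar, Finsupp.sub_apply, Finsupp.smul_apply, Finsupp.single_eq_of_ne hp1'.ne',
      smul_zero, sub_zero]
  refine absurd (hz0 z2 ⟨h12, fun r hr => ?_⟩) (not_le.2 h20)
  have h4 := h3 r hr _ (single_mem_Flt h20 1)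
  rw [rho_sub_scalar] at h4
  have h5 := Submodule.add_mem _ (Flt_le_Fle z2 h4) (Submodule.smul_mem _
    (algebraMap k (LaurentPolynomial k) (α r)) (single_mem_Fle (le_refl z2) 1))
  rwa [sub_add_cancel] at h5

/-- deep points are permuted by short group elements -/
def Deep (k : Type) [Field k] (g : G2) (N : ℕ) : Prop :=
  ∀ p : Pt, N + 2 ≤ p.d → ∃ q c, p.d ≤ q.d + N ∧
    rho k (sg k g) (Finsupp.single p 1) = Finsupp.single q (T c) ∧ Good k p q c (sg k g)

lemma deep_gen {b : ℕ} (hb : b = 0 ∨ b = 1) {ε : ℤ} (hε : ε = 1 ∨ ε = -1) :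
    Deep k (gen b ^ ε) 1 := by
  intro p hp
  have hb' : b = 0 ∨ (b = 1 ∧ ¬ Hi p) := hb.imp id fun h => ⟨h, by unfold Hi; omega⟩
  exact ⟨_, _, mv_depth b ε p, rho_gen hε hb', good_mv hε hb'⟩

lemma exists_deep (g : G2) : ∃ N, Deep k g N := by
  induction g using FreeGroup.induction_on with
  | C1 =>
    refine ⟨0, fun p _ => ⟨p, 0, le_rfl, by simp, ?_⟩⟩
    rw [map_one]
    exact good_refl p
  | of b =>
    obtain ⟨n, hn, h⟩ := of_eq_gen b
    have := deep_gen (k := k) hn (ε := 1) (Or.inl rfl)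
    rw [zpow_one, ← h] at this
    exact ⟨1, this⟩
  | inv_of b _ =>
    obtain ⟨n, hn, h⟩ := of_eq_gen b
    have := deep_gen (k := k) hn (ε := -1) (Or.inr rfl)
    rw [zpow_neg_one, ← h] at this
    exact ⟨1, this⟩
  | mul g h hg hh =>
    obtain ⟨N, hN⟩ := hg
    obtain ⟨M, hM⟩ := hh
    refine ⟨N + M, fun p hp => ?_⟩
    obtain ⟨q, c, h1, h2, h3⟩ := hM p (by omega)
    obtain ⟨q', c', h1', h2', h3'⟩ := hN q (by omega)
    refine ⟨q', c + c', by omega, ?_, ?_⟩
    · rw [map_mul, map_mul, Module.End.mul_apply, h2, single_eq_smul, map_smul, h2',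
        Finsupp.smul_single, smul_eq_mul, T_add]
    · rw [map_mul]
      exact h3.trans h3'

lemma Deep.mono {g : G2} {N M : ℕ} (h : Deep k g N) (hNM : N ≤ M) : Deep k g M := by
  intro p hp
  obtain ⟨q, c, h1, h2⟩ := h p (by omega)
  exact ⟨q, c, by omega, h2⟩

lemma sg_inj : Function.Injective (sg k) := MonoidAlgebra.of_injective

lemma PP_term (d i : ℕ) : PP k i ⟨d, fun _ => 0⟩ = sg k (gen d ^ i) := by
  have h : term ⟨d, fun _ => 0⟩ := Or.inl rfl
  induction i with
  | zero => simp [PP]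
  | succ i ih => rw [PP, sh, if_pos h, ih, letter, if_pos h, ← map_mul, pow_succ']

lemma fix_term {g : G2} {d : ℕ} {c : ℤ} (h : Good k ⟨d, fun _ => 0⟩ ⟨d, fun _ => 0⟩ c (sg k g)) :
    ∃ n : ℤ, g = gen d ^ n := by
  obtain ⟨i, j, -, -, h2⟩ := h.1
  rw [PP_term, PP_term, ← map_mul] at h2
  refine ⟨(i : ℤ) - j, ?_⟩
  rw [zpow_sub, zpow_natCast, zpow_natCast, ← sg_inj h2, mul_inv_cancel_right]

lemma exists_moved {g : G2} (hg : g ≠ 1) (N : ℕ) (hN : Deep k g N) (M : ℕ) :
    ∃ p q c, M ≤ p.d ∧ M ≤ q.d ∧ p ≠ q ∧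
      rho k (sg k g) (Finsupp.single p 1) = Finsupp.single q (T c) := by
  by_contra hc
  push Not at hc
  have key : ∀ d, M + N + 2 ≤ d → ∃ n : ℤ, g = gen d ^ n := by
    intro d hd
    obtain ⟨q, c, h1, h2, h3⟩ := hN ⟨d, fun _ => 0⟩ (by simp only; omega)
    simp only at h1
    by_cases hq : (⟨d, fun _ => 0⟩ : Pt) = q
    · rw [← hq] at h3
      exact fix_term h3
    · exact absurd h2 (hc _ q c (by simp only; omega) (by omega) hq)
  obtain ⟨n, hn⟩ := key (2 * (M + N + 2)) (by omega)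
  obtain ⟨m, hm⟩ := key (2 * (M + N + 2) + 1) (by omega)
  rw [gen_congr (b := 0) (by omega)] at hn
  rw [gen_congr (b := 1) (by omega)] at hm
  let χ : G2 →* Multiplicative ℤ := FreeGroup.lift fun b => if b then Multiplicative.ofAdd 1 else 1
  have h1 : χ g = 1 := by rw [hn]; simp [χ, gen]
  have h2 : χ g = Multiplicative.ofAdd m := by
    rw [hm, map_zpow]
    simp only [χ, gen, FreeGroup.lift_apply_of]
    simp [← ofAdd_zsmul]
  rw [h1] at h2
  have : m = 0 := by simpa using h2.symm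
  rw [this, zpow_zero] at hm
  exact hg hm

lemma not_mem_Fle (r : A k) (g : G2) (hg : r.coeff g ≠ 0) (p q : Pt) (c : ℤ) (hpq : p < q)
    (N : ℕ) (hN : ∀ h ∈ r.coeff.support, Deep k h N) (hp : N + 2 ≤ p.d)
    (h : rho k (sg k g) (Finsupp.single p 1) = Finsupp.single q (T c)) :
    rho k r (Finsupp.single p 1) ∉ Fle k p := by
  classical
  intro hc
  have h0 : rho k r (Finsupp.single p 1) q = 0 := by
    by_contra h0
    exact absurd (mem_Fle.1 hc q h0) (not_le.2 hpq)
  have hgs : g ∈ r.coeff.support := Finsupp.mem_support_iff.2 hg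
  have hT : ∀ c : ℤ, (T c : LaurentPolynomial k) ≠ 0 := fun c => (isUnit_T c).ne_zero
  have hgood : Good k p q c (sg k g) := by
    obtain ⟨q', c', -, h2, h3⟩ := hN g hgs p hp
    rw [h, Finsupp.single_eq_single_iff] at h2
    rcases h2 with ⟨h4, h5⟩ | ⟨h4, -⟩
    · have : c = c' := by
        by_contra hcc
        have h6 := congrArg (fun f : LaurentPolynomial k => f.coeff c) h5
        simp only [T_apply, if_true, if_neg (Ne.symm hcc)] at h6
        exact one_ne_zero h6
      rwa [h4, this]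
    · exact absurd h4 (hT c)
  have e : r = ∑ h ∈ r.coeff.support, r.coeff h • sg k h := by
    conv_lhs => rw [← r.sum_coeff_single, Finsupp.sum]
    refine Finset.sum_congr rfl fun h _ => ?_
    simp [sg]
  have h1 : (rho k r (Finsupp.single p 1) q).coeff c = r.coeff g := by
    conv_lhs => rw [e]
    rw [map_sum, LinearMap.sum_apply, Finsupp.finsetSum_apply, AddMonoidAlgebra.coeff_sum,
      Finsupp.finsetSum_apply, Finset.sum_eq_single g]
    · rw [map_smul, LinearMap.smul_apply, h, Finsupp.smul_apply, Finsupp.single_eq_same,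
        AddMonoidAlgebra.coeff_smul, Finsupp.smul_apply, T_apply, if_pos rfl, smul_eq_mul, mul_one]
    · intro h' hh' hne
      obtain ⟨q', c', -, h2, h3⟩ := hN h' hh' p hp
      rw [map_smul, LinearMap.smul_apply, h2, Finsupp.smul_apply, AddMonoidAlgebra.coeff_smul,
        Finsupp.smul_apply]
      by_cases hq : q = q'
      · subst hq
        rw [Finsupp.single_eq_same, T_apply, if_neg, smul_zero]
        rintro rfl
        exact hne (sg_inj (h3.1.unique hgood.1))
      · rw [Finsupp.single_eq_of_ne hq]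
        simp
    · intro h'
      exact absurd hgs h'
  rw [h0] at h1
  exact hg (by simpa using h1.symm)

lemma exists_deep_all (s : Finset G2) : ∃ N, ∀ h ∈ s, Deep k h N := by
  choose N hN using exists_deep (k := k)
  exact ⟨s.sup N, fun h hh => (hN h).mono (Finset.le_sup hh)⟩

/-- a start point for one of the two orientations -/
lemma exists_start (r r' : A k) (g : G2) (hg : g ≠ 1) (hr : r.coeff g ≠ 0)
    (hr' : r'.coeff g⁻¹ ≠ 0) :
    (∃ p, rho k r (Finsupp.single p 1) ∉ Fle k p) ∨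
      (∃ p, rho k r' (Finsupp.single p 1) ∉ Fle k p) := by
  obtain ⟨N, hN⟩ := exists_deep_all (k := k) r.coeff.support
  obtain ⟨N', hN'⟩ := exists_deep_all (k := k) r'.coeff.support
  obtain ⟨p, q, c, hp, hq, hpq, h⟩ := exists_moved hg N (hN g (Finsupp.mem_support_iff.2 hr))
    (N + N' + 2)
  rcases lt_or_gt_of_ne hpq with h1 | h1
  · exact Or.inl ⟨p, not_mem_Fle r g hr p q c h1 N hN (by omega) h⟩
  · refine Or.inr ⟨q, not_mem_Fle r' g⁻¹ hr' q p (-c) h1 N' hN' (by omega) ?_⟩
    have h2 : (Finsupp.single q 1 : V k) =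
        (T (-c) : LaurentPolynomial k) • rho k (sg k g) (Finsupp.single p 1) := by
      rw [h, Finsupp.smul_single, smul_eq_mul, ← T_add, neg_add_cancel, T_zero]
    rw [h2, map_smul, ← Module.End.mul_apply, ← map_mul, ← map_mul, inv_mul_cancel, map_one,
      map_one, Module.End.one_apply, Finsupp.smul_single, smul_eq_mul, mul_one]

end Pool.Agent.H223Z.FG
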