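import Pool.Agent.H223Z.FG.Rep

/-!
Every element of the group algebra moves the points monotonically.
-/

set_option autoImplicit false
set_option maxHeartbeats 400000

namespace Pool.Agent.H223Z.FG

open LaurentPolynomial

variable (k : Type) [Field k]

/-- the augmentation element of the second generator -/
noncomputable def eta : A k := sg k (gen 1) - 1

/-- quotients of consecutive basis elements of the cap -/
noncomputable def qq (n : ℕ) : A k := if n % 2 = 1 then eta k * sg k (gen 1)⁻¹ else eta k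

/-- basis elements of the cap -/
noncomputable def ee : ℕ → A k
  | 0 => 1
  | n + 1 => qq k n * ee n

/-- the element of the first symbol of a point -/
noncomputable def letter (p : Pt) : A k :=
  if term p then sg k (gen p.d)
  else if p.d = 1 ∧ p.s 0 < 0 then ee k (ord p) else sg k (gen p.d ^ p.s 0)

/-- the element of a prefix of a point -/
noncomputable def PP : ℕ → Pt → A k
  | 0, _ => 1
  | i + 1, p => letter k p * PP i (sh p)

/-- `B` leads from `ω` to `ψ` -/
def Rel (ω ψ : Pt) (c : ℤ) (B : A k) : Prop :=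
  ∃ i j : ℕ, (i : ℤ) = j + c ∧ sh^[i] ψ = sh^[j] ω ∧ B * PP k j ω = PP k i ψ

/-- `B` leads monotonically from `ω` to `ψ` -/
def Good (ω ψ : Pt) (c : ℤ) (B : A k) : Prop :=
  Rel k ω ψ c B ∧ ∀ v ∈ Flt k ω, rho k B v ∈ Flt k ψ

variable {k}

lemma PP_add (i j : ℕ) (p : Pt) : PP k (i + j) p = PP k i p * PP k j (sh^[i] p) := by
  induction i generalizing p with
  | zero => simp [PP]
  | succ i ih => rw [Nat.succ_add, PP, PP, ih, Function.iterate_succ_apply, mul_assoc]

lemma sg_reg (g : G2) : IsRightRegular (sg k g) := ((Group.isUnit g).map (sg k)).isRegular.right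

lemma eta_reg : IsRightRegular (eta k) := by
  intro B B' h
  simp only at h
  rw [← sub_eq_zero, ← sub_mul] at h
  rw [← sub_eq_zero]
  set D := B - B'
  rw [eta, mul_sub, mul_one, sub_eq_zero] at h
  have h1 : ∀ g, D.coeff (g * (gen 1)⁻¹) = D.coeff g := by
    intro g
    conv_rhs => rw [← h]
    simp [sg]
  have h2 : ∀ g (n : ℕ), D.coeff (g * (gen 1)⁻¹ ^ n) = D.coeff g := by
    intro g n
    induction n with
    | zero => simp
    | succ n ih => rw [pow_succ, ← mul_assoc, h1, ih]
  by_contra hD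
  obtain ⟨g, hg⟩ : ∃ g, D.coeff g ≠ 0 := by
    by_contra hc
    push Not at hc
    exact hD (MonoidAlgebra.ext (Finsupp.ext hc))
  have hinj : Function.Injective fun n : ℕ => g * (gen 1)⁻¹ ^ n := by
    intro m n hmn
    have h3 : ¬ IsOfFinOrder (gen 1)⁻¹ := by
      rw [isOfFinOrder_iff_eq_one, inv_eq_one]
      exact FreeGroup.of_ne_one _
    exact injective_pow_iff_not_isOfFinOrder.2 h3 (mul_left_cancel hmn)
  refine Set.infinite_of_injective_forall_mem hinj (s := (D.coeff.support : Set G2)) (fun n => ?_)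
    (Finset.finite_toSet _)
  simp only [Finset.mem_coe, Finsupp.mem_support_iff, h2]
  exact hg

lemma ee_reg (n : ℕ) : IsRightRegular (ee k n) := by
  induction n with
  | zero => exact isRegular_one.right
  | succ n ih =>
    rw [ee]
    refine IsRightRegular.mul ?_ ih
    unfold qq
    split_ifs
    · exact eta_reg.mul (sg_reg _)
    · exact eta_reg

lemma PP_reg (i : ℕ) (p : Pt) : IsRightRegular (PP k i p) := by
  induction i generalizing p with
  | zero => exact isRegular_one.right
  | succ i ih =>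
    rw [PP]
    refine IsRightRegular.mul ?_ (ih _)
    unfold letter
    split_ifs
    · exact sg_reg _
    · exact ee_reg _
    · exact sg_reg _

lemma rel_add {ω ψ : Pt} {B : A k} {i j : ℕ} (h1 : sh^[i] ψ = sh^[j] ω)
    (h2 : B * PP k j ω = PP k i ψ) (m : ℕ) :
    sh^[i + m] ψ = sh^[j + m] ω ∧ B * PP k (j + m) ω = PP k (i + m) ψ := by
  refine ⟨?_, ?_⟩
  · rw [add_comm i, add_comm j, Function.iterate_add_apply, Function.iterate_add_apply, h1]
  · rw [PP_add, PP_add, ← mul_assoc, h2, h1]

lemma Rel.unique {ω ψ : Pt} {c : ℤ} {B B' : A k} (h : Rel k ω ψ c B) (h' : Rel k ω ψ c B') :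
    B = B' := by
  obtain ⟨i, j, h0, h1, h2⟩ := h
  obtain ⟨i', j', h0', h1', h2'⟩ := h'
  have h3 := (rel_add h1 h2 j').2
  have h4 := (rel_add h1' h2' j).2
  have e : i + j' = i' + j := by omega
  rw [e, ← h4, add_comm j' j] at h3
  exact PP_reg _ _ h3

lemma Rel.trans {ω ψ φ : Pt} {c c' : ℤ} {B B' : A k} (h : Rel k ω ψ c B) (h' : Rel k ψ φ c' B') :
    Rel k ω φ (c + c') (B' * B) := by
  obtain ⟨i, j, h0, h1, h2⟩ := h
  obtain ⟨i', j', h0', h1', h2'⟩ := h'
  obtain ⟨h3, h4⟩ := rel_add h1 h2 j'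
  obtain ⟨h5, h6⟩ := rel_add h1' h2' i
  refine ⟨i' + i, j + j', by push_cast; omega, ?_, ?_⟩
  · rw [h5, ← h3, add_comm]
  · rw [mul_assoc, h4, ← h6, add_comm]

lemma Good.trans {ω ψ φ : Pt} {c c' : ℤ} {B B' : A k} (h : Good k ω ψ c B)
    (h' : Good k ψ φ c' B') : Good k ω φ (c + c') (B' * B) :=
  ⟨h.1.trans h'.1, fun v hv => by
    rw [map_mul, Module.End.mul_apply]
    exact h'.2 _ (h.2 v hv)⟩

lemma good_refl (ω : Pt) : Good k ω ω 0 1 :=
  ⟨⟨0, 0, by simp, rfl, by simp⟩, fun v hv => by simpa using hv⟩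

lemma gen_congr {a b : ℕ} (h : a % 2 = b % 2) : gen a = gen b := by
  unfold gen; rw [h]

lemma good_mv {b : ℕ} {ε : ℤ} (hε : ε = 1 ∨ ε = -1) {p : Pt} (hb : b = 0 ∨ (b = 1 ∧ ¬ Hi p)) :
    Good k p (mv b ε p).1 (mv b ε p).2 (sg k (gen b ^ ε)) := by
  refine ⟨?_, gen_mono hε hb⟩
  unfold Hi at hb
  rcases mv_cases b hε p with ⟨h1, h2, h3⟩ | ⟨h1, h2, h3, h4, h5⟩ | ⟨h1, h2, h3, h4⟩ | ⟨h1, h3⟩
  · have hg : gen p.d = gen b := gen_congr (by omega)
    have hs : sh p = p := by simp [sh, h2]
    rw [h3]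
    rcases hε with rfl | rfl
    · exact ⟨1, 0, by simp, by simpa using hs, by simp [PP, letter, h2, hg]⟩
    · refine ⟨0, 1, by simp, by simpa using hs.symm, ?_⟩
      simp only [PP, letter, if_pos h2, hg, mul_one, ← map_mul]
      simp
  · have hg : gen p.d = gen b := gen_congr (by omega)
    rw [h4]
    refine ⟨0, 1, by simp, by simp, ?_⟩
    have h6 : ¬ (p.d = 1 ∧ p.s 0 < 0) := by omega
    simp only [PP, letter, if_neg h2, if_neg h6, hg, mul_one, ← map_mul, ← zpow_add]
    rw [add_comm, h3]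
    simp
  · have hg : gen p.d = gen b := gen_congr (by omega)
    rw [h4]
    have h5 : ¬ term ⟨p.d, cons (p.s 0 + ε) (tl p.s)⟩ := by
      unfold term at *
      simp only [cons_zero]
      omega
    have h6 : ¬ (p.d = 1 ∧ p.s 0 < 0) := by omega
    have h7 : ¬ (p.d = 1 ∧ p.s 0 + ε < 0) := by
      unfold term at h2
      omega
    refine ⟨1, 1, by simp, ?_, ?_⟩
    · simp only [Function.iterate_one, sh, if_neg h2, if_neg h5, cons_zero, tl_cons, Pt.mk.injEq,
        and_true]
      unfold term at h2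
      split_ifs <;> omega
    · simp only [PP, letter, if_neg h2, if_neg h5, if_neg h6, cons_zero, if_neg h7, hg, mul_one,
        ← map_mul, ← zpow_add]
      rw [add_comm]
  · have hg : gen ((p.d : ℤ) - ε).toNat = gen b := gen_congr (by omega)
    rw [h3]
    have h5 : ¬ term ⟨((p.d : ℤ) - ε).toNat, cons ε p.s⟩ := by
      unfold term
      simp only [cons_zero]
      omega
    have h7 : ¬ (((p.d : ℤ) - ε).toNat = 1 ∧ ε < 0) := by omega
    refine ⟨1, 0, by simp, ?_, ?_⟩
    · simp only [Function.iterate_one, Function.iterate_zero, id, sh, if_neg h5, cons_zero, tl_cons]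
      refine Pt.ext ?_ rfl
      simp only
      split_ifs <;> omega
    · simp only [PP, letter, if_neg h5, cons_zero, if_neg h7, hg, mul_one]

lemma letter_E (n : ℕ) (u : ℕ → ℤ) : letter k (E (n + 1) u) = ee k (n + 1) ∧
    sh (E (n + 1) u) = ⟨0, u⟩ := by
  have h1 : ¬ term (E (n + 1) u) := by
    simp only [E, term, Nat.add_eq_zero_iff, one_ne_zero, and_false, if_false, cons_zero, false_and,
      or_false]
    omega
  have h2 : (E (n + 1) u).d = 1 ∧ (E (n + 1) u).s 0 < 0 := by
    simp only [E, Nat.add_eq_zero_iff, one_ne_zero, and_false, if_false, cons_zero, true_and]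
    omega
  refine ⟨by rw [letter, if_neg h1, if_pos h2, ord_E], ?_⟩
  rw [sh, if_neg h1, if_neg (by omega), h2.1]
  simp [E]

lemma good_E (n : ℕ) (u : ℕ → ℤ) :
    Good k (E n u) (E (n + 1) u) (w (n + 1) - w n) (qq k n) := by
  refine ⟨?_, fun v hv => ?_⟩
  · cases n with
    | zero =>
      refine ⟨1, 0, by simp [w], ?_, ?_⟩
      · rw [Function.iterate_one, (letter_E (k := k) 0 u).2]; simp [E]
      · simp only [PP, (letter_E 0 u).1, ee, mul_one]
    | succ n =>
      refine ⟨1, 1, by simp [w], ?_, ?_⟩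
      · rw [Function.iterate_one, (letter_E (k := k) _ u).2, (letter_E (k := k) _ u).2]
      · simp only [PP, (letter_E _ u).1, mul_one]
        rfl
  · unfold qq
    split_ifs
    · rw [map_mul, Module.End.mul_apply]
      exact eta_mono n u _ (yinv_mono n u v hv)
    · exact eta_mono n u v hv

end Pool.Agent.H223Z.FG
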