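import Pool.Agent.H223Z.FG.Good

set_option autoImplicit false
set_option maxHeartbeats 400000

namespace Pool.Agent.H223Z.FG

open LaurentPolynomial

variable (k : Type) [Field k]

open Classical in
/-- the element leading from `ω` to a basis vector -/
noncomputable def Bf (ω ψ : Pt) (c : ℤ) : A k :=
  if h : ∃ B, Good k ω ψ c B then h.choose else 0

/-- the inverse of evaluation at `ω` -/
noncomputable def Lam (ω : Pt) : V k →ₗ[k] A k :=
  Finsupp.lsum k fun ψ => (Finsupp.linearCombination k (Bf k ω ψ)) ∘ₗ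
    (AddMonoidAlgebra.coeffLinearEquiv k).toLinearMap

/-- the graph of evaluation at `ω` -/
noncomputable def SS (ω : Pt) : Submodule k (A k × V k) :=
  Submodule.span k {x | ∃ ψ c B, Good k ω ψ c B ∧ x = (B, Finsupp.single ψ (T c))}

variable {k}

lemma Bf_eq {ω ψ : Pt} {c : ℤ} {B : A k} (h : Good k ω ψ c B) : Bf k ω ψ c = B := by
  have h1 : ∃ B, Good k ω ψ c B := ⟨B, h⟩
  rw [Bf, dif_pos h1]
  exact h1.choose_spec.1.unique h.1

lemma Bf_mono (ω ψ : Pt) (c : ℤ) : ∀ v ∈ Flt k ω, rho k (Bf k ω ψ c) v ∈ Flt k ψ := by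
  intro v hv
  unfold Bf
  split_ifs with h
  · exact h.choose_spec.2 v hv
  · simp

lemma Lam_single (ω ψ : Pt) (c : ℤ) : Lam k ω (Finsupp.single ψ (T c)) = Bf k ω ψ c := by
  rw [Lam, Finsupp.lsum_single, LinearMap.comp_apply]
  have : (AddMonoidAlgebra.coeffLinearEquiv k).toLinearMap (T c : LaurentPolynomial k) =
      Finsupp.single c 1 := rfl
  rw [this, Finsupp.linearCombination_single, one_smul]

lemma Lam_SS {ω : Pt} {a : A k} {v : V k} (hx : (a, v) ∈ SS k ω) : Lam k ω v = a := by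
  have h : SS k ω ≤ LinearMap.eqLocus ((Lam k ω) ∘ₗ LinearMap.snd k (A k) (V k))
      (LinearMap.fst k (A k) (V k)) := by
    rw [SS, Submodule.span_le]
    rintro _ ⟨ψ, c, B, h, rfl⟩
    rw [SetLike.mem_coe, LinearMap.mem_eqLocus, LinearMap.comp_apply, LinearMap.snd_apply,
      LinearMap.fst_apply, Lam_single, Bf_eq h]
  have h2 := h hx
  rwa [LinearMap.mem_eqLocus, LinearMap.comp_apply, LinearMap.snd_apply,
      LinearMap.fst_apply] at h2

lemma mem_SS {ω ψ : Pt} {c : ℤ} {B : A k} (h : Good k ω ψ c B) :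
    (B, Finsupp.single ψ (T c)) ∈ SS k ω := Submodule.subset_span ⟨ψ, c, B, h, rfl⟩

lemma mem_SS_ev {ω : Pt} {c : ℤ} {n : ℕ} {u : ℕ → ℤ} {B : A k} (h : Good k ω (E n u) (c + w n) B) :
    (B, (T c : LaurentPolynomial k) • ev k n u) ∈ SS k ω := by
  rw [ev, Finsupp.smul_single, smul_eq_mul, ← T_add]
  exact mem_SS h

lemma y_id (n : ℕ) : sg k (gen 1) = 1 + qq k n + if n % 2 = 1 then qq k (n + 1) * qq k n else 0 := by
  have h1 : sg k (gen 1) * sg k (gen 1)⁻¹ = 1 := by rw [← map_mul]; simp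
  unfold qq eta
  by_cases h : n % 2 = 1
  · have h' : ¬ (n + 1) % 2 = 1 := by omega
    simp only [h, h', if_true, if_false]
    set y := sg k (gen 1)
    set z := sg k (gen 1)⁻¹
    have : 1 + (y - 1) * z + (y - 1) * ((y - 1) * z) = 1 + y * (y * z) - y * z := by noncomm_ring
    rw [this, h1]; simp
  · simp [h]

lemma y_id' (n : ℕ) :
    sg k (gen 1)⁻¹ = 1 - qq k n + if n % 2 = 1 then 0 else qq k (n + 1) * qq k n := by
  have h1 : sg k (gen 1) * sg k (gen 1)⁻¹ = 1 := by rw [← map_mul]; simp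
  have h2 : sg k (gen 1)⁻¹ * sg k (gen 1) = 1 := by rw [← map_mul]; simp
  unfold qq eta
  set y := sg k (gen 1)
  set z := sg k (gen 1)⁻¹
  by_cases h : n % 2 = 1
  · simp only [h, if_true, add_zero]
    rw [sub_mul, h1]; simp
  · have h' : (n + 1) % 2 = 1 := by omega
    simp only [h, h', if_true, if_false]
    have : 1 - (y - 1) + (y - 1) * z * (y - 1) =
        1 + 1 - y + y * (z * y) - y * z - z * y + z := by
      noncomm_ring
    rw [this, h1, h2, mul_one]
    abel

lemma SS_of_gen (ω : Pt) (a : A k) (h : ∀ ψ c B, Good k ω ψ c B →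
    (a * B, rho k a (Finsupp.single ψ (T c))) ∈ SS k ω) (a' : A k) (v : V k)
    (hx : (a', v) ∈ SS k ω) : (a * a', rho k a v) ∈ SS k ω := by
  have h1 : SS k ω ≤ (SS k ω).comap ((LinearMap.mulLeft k a).prodMap
      (LinearMap.restrictScalars k (rho k a))) := by
    conv_lhs => rw [SS]
    rw [Submodule.span_le]
    rintro _ ⟨ψ, c, B, hg, rfl⟩
    rw [SetLike.mem_coe, Submodule.mem_comap, LinearMap.prodMap_apply, LinearMap.mulLeft_apply,
      LinearMap.restrictScalars_apply]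
    exact h ψ c B hg
  have h2 := h1 hx
  rwa [Submodule.mem_comap, LinearMap.prodMap_apply, LinearMap.mulLeft_apply,
      LinearMap.restrictScalars_apply] at h2

lemma SS_add {ω : Pt} {a a' : A k} {v v' : V k} (h : (a, v) ∈ SS k ω) (h' : (a', v') ∈ SS k ω) :
    (a + a', v + v') ∈ SS k ω := by
  have := (SS k ω).add_mem h h'
  rwa [Prod.mk_add_mk] at this

lemma SS_sub {ω : Pt} {a a' : A k} {v v' : V k} (h : (a, v) ∈ SS k ω) (h' : (a', v') ∈ SS k ω) :
    (a - a', v - v') ∈ SS k ω := by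
  have := (SS k ω).sub_mem h h'
  rwa [Prod.mk_sub_mk] at this

lemma SS_cap {ω : Pt} {n : ℕ} {u : ℕ → ℤ} {c : ℤ} {B : A k} (h : Good k ω (E n u) c B) :
    (sg k (gen 1) * B, rho k (sg k (gen 1)) (Finsupp.single (E n u) (T c))) ∈ SS k ω ∧
    (sg k (gen 1)⁻¹ * B, rho k (sg k (gen 1)⁻¹) (Finsupp.single (E n u) (T c))) ∈ SS k ω := by
  have e0 : (Finsupp.single (E n u) (T c) : V k) =
      (T (c - w n) : LaurentPolynomial k) • ev k n u := by
    rw [ev, Finsupp.smul_single, smul_eq_mul, ← T_add, sub_add_cancel]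
  have g0 : Good k ω (E n u) (c - w n + w n) B := by rwa [sub_add_cancel]
  have g1 : Good k ω (E (n + 1) u) (c - w n + w (n + 1)) (qq k n * B) := by
    have := h.trans (good_E n u)
    rwa [show c + (w (n + 1) - w n) = c - w n + w (n + 1) by ring] at this
  have g2 : Good k ω (E (n + 2) u) (c - w n + w (n + 2)) (qq k (n + 1) * (qq k n * B)) := by
    have := g1.trans (good_E (n + 1) u)
    rwa [show c - w n + w (n + 1) + (w (n + 1 + 1) - w (n + 1)) = c - w n + w (n + 2) by
      ring] at this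
  have m0 := mem_SS_ev g0
  have m1 := mem_SS_ev g1
  have m2 := mem_SS_ev g2
  rw [e0, map_smul, map_smul, rho_y, Y_ev, rho_y', Y'_ev, y_id n, y_id' n]
  by_cases hn : n % 2 = 1
  · rw [if_pos hn, if_pos hn, if_pos hn, if_pos hn, add_zero, add_zero, add_mul, add_mul, sub_mul,
      one_mul, mul_assoc, smul_add, smul_add, smul_sub]
    exact ⟨SS_add (SS_add m0 m1) m2, SS_sub m0 m1⟩
  · rw [if_neg hn, if_neg hn, if_neg hn, if_neg hn, add_zero, add_zero, add_mul, add_mul, sub_mul,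
      one_mul, mul_assoc, smul_add, smul_add, smul_sub]
    exact ⟨SS_add m0 m1, SS_add (SS_sub m0 m1) m2⟩

lemma SS_gen (ω : Pt) {b : ℕ} (hb : b = 0 ∨ b = 1) {ε : ℤ} (hε : ε = 1 ∨ ε = -1) :
    ∀ a v, (a, v) ∈ SS k ω → (sg k (gen b ^ ε) * a, rho k (sg k (gen b ^ ε)) v) ∈ SS k ω := by
  refine SS_of_gen ω _ fun ψ c B h => ?_
  by_cases hψ : b = 0 ∨ (b = 1 ∧ ¬ Hi ψ)
  · rw [single_eq_smul, map_smul, rho_gen hε hψ, gimg, Finsupp.smul_single, smul_eq_mul, ← T_add]
    exact mem_SS (h.trans (good_mv hε hψ))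
  · have hb1 : b = 1 := by tauto
    have hi : Hi ψ := by
      by_contra hc
      exact hψ (Or.inr ⟨hb1, hc⟩)
    subst hb1
    obtain ⟨n, u, rfl⟩ : ∃ n u, ψ = E n u := ⟨_, _, (E_ord_base hi).symm⟩
    rcases hε with rfl | rfl
    · rw [zpow_one]; exact (SS_cap h).1
    · rw [zpow_neg_one]; exact (SS_cap h).2

lemma of_eq_gen (b : Bool) : ∃ n : ℕ, (n = 0 ∨ n = 1) ∧ FreeGroup.of b = gen n := by
  cases b
  · exact ⟨0, Or.inl rfl, by simp [gen]⟩
  · exact ⟨1, Or.inr rfl, by simp [gen]⟩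

lemma SS_grp (ω : Pt) (g : G2) :
    ∀ a v, (a, v) ∈ SS k ω → (sg k g * a, rho k (sg k g) v) ∈ SS k ω := by
  induction g using FreeGroup.induction_on with
  | C1 => intro a v hx; rwa [map_one, map_one, one_mul, Module.End.one_apply]
  | of b =>
    obtain ⟨n, hn, h⟩ := of_eq_gen b
    have := SS_gen (k := k) ω hn (ε := 1) (Or.inl rfl)
    rwa [zpow_one, ← h] at this
  | inv_of b _ =>
    obtain ⟨n, hn, h⟩ := of_eq_gen b
    have := SS_gen (k := k) ω hn (ε := -1) (Or.inr rfl)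
    rwa [zpow_neg_one, ← h] at this
  | mul g h hg hh =>
    intro a v hx
    have := hg _ _ (hh a v hx)
    rwa [map_mul, map_mul, mul_assoc, Module.End.mul_apply]

lemma Lam_rho (ω : Pt) (a : A k) : Lam k ω (rho k a (Finsupp.single ω 1)) = a := by
  have : (a, rho k a (Finsupp.single ω 1)) ∈ SS k ω := by
    induction a using MonoidAlgebra.induction_on with
    | of g =>
      have h0 := mem_SS (good_refl (k := k) ω)
      rw [T_zero] at h0
      have h1 := SS_grp ω g _ _ h0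
      rwa [mul_one] at h1
    | add x y hx hy =>
      rw [map_add, LinearMap.add_apply]
      exact SS_add hx hy
    | smul c x hx =>
      have := (SS k ω).smul_mem c hx
      rwa [Prod.smul_mk, ← LinearMap.smul_apply, ← map_smul] at this
  exact Lam_SS this

/-- monotonicity of every element of the group algebra -/
theorem mono_all (ω ψ : Pt) (a : A k) (h : rho k a (Finsupp.single ω 1) ∈ Fle k ψ) :
    ∀ v ∈ Flt k ω, rho k a v ∈ Flt k ψ := by
  intro v hv
  rw [← Lam_rho ω a]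
  set x := rho k a (Finsupp.single ω 1)
  rw [Lam, Finsupp.lsum_apply, Finsupp.sum, map_sum, LinearMap.sum_apply]
  refine Submodule.sum_mem _ fun p hp => ?_
  refine Flt_mono (mem_Fle.1 h p (Finsupp.mem_support_iff.1 hp)) ?_
  rw [LinearMap.comp_apply, Finsupp.linearCombination_apply, Finsupp.sum, map_sum,
    LinearMap.sum_apply]
  refine Submodule.sum_mem _ fun c _ => ?_
  rw [map_smul, LinearMap.smul_apply]
  exact Submodule.smul_of_tower_mem _ _ (Bf_mono ω p c v hv)

end Pool.Agent.H223Z.FG
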