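import Mathlib

/-!
An ordered set of infinite words on which the two generators of the free group of rank two move
monotonically.
-/

set_option autoImplicit false

namespace Pool.Agent.H223Z.FG

/-- order of the symbols: `1 < 2 < ⋯ < 0 < ⋯ < -2 < -1` -/
def slt (a b : ℤ) : Prop :=
  (0 < a ∧ a < b) ∨ (0 < a ∧ b ≤ 0) ∨ (a = 0 ∧ b < 0) ∨ (a < 0 ∧ b < 0 ∧ a < b)

/-- lexicographic order of sequences of symbols -/
def lex (s t : ℕ → ℤ) : Prop := ∃ i, (∀ j < i, s j = t j) ∧ slt (s i) (t i)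

/-- prepend a symbol -/
def cons (n : ℤ) (s : ℕ → ℤ) : ℕ → ℤ
  | 0 => n
  | i + 1 => s i

/-- drop the first symbol -/
def tl (s : ℕ → ℤ) : ℕ → ℤ := fun i => s (i + 1)

@[simp] lemma cons_zero (n : ℤ) (s : ℕ → ℤ) : cons n s 0 = n := rfl
@[simp] lemma tl_cons (n : ℤ) (s : ℕ → ℤ) : tl (cons n s) = s := rfl
lemma cons_tl (s : ℕ → ℤ) : cons (s 0) (tl s) = s := by
  funext i; cases i <;> rfl

lemma lex_iff (s t : ℕ → ℤ) : lex s t ↔ slt (s 0) (t 0) ∨ (s 0 = t 0 ∧ lex (tl s) (tl t)) := by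
  constructor
  · rintro ⟨i, h1, h2⟩
    cases i with
    | zero => exact Or.inl h2
    | succ i => exact Or.inr ⟨h1 0 (by omega), i, fun j hj => h1 (j + 1) (by omega), h2⟩
  · rintro (h | ⟨h0, i, h1, h2⟩)
    · exact ⟨0, fun j hj => by omega, h⟩
    · refine ⟨i + 1, fun j hj => ?_, h2⟩
      cases j with
      | zero => exact h0
      | succ j => exact h1 j (by omega)

lemma lex_irrefl (s : ℕ → ℤ) : ¬ lex s s := by
  rintro ⟨i, -, h⟩
  unfold slt at h; omega

lemma lex_trans {s t u : ℕ → ℤ} (h1 : lex s t) (h2 : lex t u) : lex s u := by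
  obtain ⟨i, hi, hi'⟩ := h1
  obtain ⟨j, hj, hj'⟩ := h2
  rcases lt_trichotomy i j with h | h | h
  · exact ⟨i, fun l hl => (hi l hl).trans (hj l (by omega)), hj i h ▸ hi'⟩
  · subst h
    refine ⟨i, fun l hl => (hi l hl).trans (hj l hl), ?_⟩
    unfold slt at *; omega
  · exact ⟨j, fun l hl => (hi l (by omega)).trans (hj l hl), (hi j h).symm ▸ hj'⟩

lemma lex_tri (s t : ℕ → ℤ) : lex s t ∨ s = t ∨ lex t s := by
  classical
  by_cases h : ∃ i, s i ≠ t i
  · have h1 := Nat.find_spec h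
    have h2 : ∀ j < Nat.find h, s j = t j := fun j hj => by
      simpa using Nat.find_min h hj
    have : slt (s (Nat.find h)) (t (Nat.find h)) ∨ slt (t (Nat.find h)) (s (Nat.find h)) := by
      unfold slt; omega
    rcases this with h3 | h3
    · exact Or.inl ⟨_, h2, h3⟩
    · exact Or.inr (Or.inr ⟨_, fun j hj => (h2 j hj).symm, h3⟩)
  · push Not at h
    exact Or.inr (Or.inl (funext h))

/-- points: a depth and a sequence of symbols -/
@[ext] structure Pt where
  d : ℕ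
  s : ℕ → ℤ

/-- the strict order of points -/
def plt (p q : Pt) : Prop := q.d < p.d ∨ (p.d = q.d ∧ lex p.s q.s)

instance : IsStrictTotalOrder Pt plt where
  irrefl p := by
    rintro (h | ⟨-, h⟩)
    · omega
    · exact lex_irrefl _ h
  trans p q r := by
    rintro (h | ⟨h, h'⟩) (g | ⟨g, g'⟩)
    · left; omega
    · left; omega
    · left; omega
    · exact Or.inr ⟨h.trans g, lex_trans h' g'⟩
  trichotomous p q h1 h2 := by
    unfold plt at h1 h2
    have hd : p.d = q.d := by omega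
    rcases lex_tri p.s q.s with h | h | h
    · exact absurd (Or.inr ⟨hd, h⟩) h1
    · exact Pt.ext hd h
    · exact absurd (Or.inr ⟨hd.symm, h⟩) h2

open Classical in
noncomputable instance : LinearOrder Pt := linearOrderOfSTO plt

lemma lt_def (p q : Pt) : p < q ↔ q.d < p.d ∨ (p.d = q.d ∧ lex p.s q.s) := Iff.rfl

lemma lt_iff (p q : Pt) : p < q ↔ q.d < p.d ∨ (p.d = q.d ∧
    (slt (p.s 0) (q.s 0) ∨ (p.s 0 = q.s 0 ∧ lex (tl p.s) (tl q.s)))) := by
  rw [lt_def, lex_iff]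

/-- terminal points -/
def term (p : Pt) : Prop := p.s 0 = 0 ∨ (p.d = 0 ∧ p.s 0 < 0)

instance (p : Pt) : Decidable (term p) := by unfold term; infer_instance

/-- the shift -/
def sh (p : Pt) : Pt :=
  if term p then p else ⟨if 0 < p.s 0 then p.d + 1 else p.d - 1, tl p.s⟩

/-- the move of the letter of parity `b` in direction `ε`, with the change of length -/
def mv (b : ℕ) (ε : ℤ) (p : Pt) : Pt × ℤ :=
  if p.d % 2 = b then
    if term p then (p, ε)
    else if p.s 0 + ε = 0 then (sh p, -1)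
    else (⟨p.d, cons (p.s 0 + ε) (tl p.s)⟩, 0)
  else (⟨if ε = 1 then p.d - 1 else p.d + 1, cons ε p.s⟩, 1)

/-- the cap -/
def Hi (p : Pt) : Prop := p.d = 0 ∨ (p.d = 1 ∧ p.s 0 < 0)

instance (p : Pt) : Decidable (Hi p) := by unfold Hi; infer_instance

lemma not_hi_of_lt {p q : Pt} (h : p < q) (hq : ¬ Hi q) : ¬ Hi p := by
  rw [lt_iff] at h
  unfold Hi slt at *
  omega

lemma lt_of_not_hi {p q : Pt} (hp : ¬ Hi p) (hq : Hi q) : p < q := by
  rw [lt_iff]
  unfold Hi slt at *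
  omega

lemma mv_cases (b : ℕ) {ε : ℤ} (hε : ε = 1 ∨ ε = -1) (p : Pt) :
    (p.d % 2 = b ∧ term p ∧ mv b ε p = (p, ε)) ∨
    (p.d % 2 = b ∧ ¬ term p ∧ p.s 0 + ε = 0 ∧ mv b ε p = (sh p, -1) ∧
      sh p = ⟨((p.d : ℤ) - ε).toNat, tl p.s⟩) ∨
    (p.d % 2 = b ∧ ¬ term p ∧ p.s 0 + ε ≠ 0 ∧ mv b ε p = (⟨p.d, cons (p.s 0 + ε) (tl p.s)⟩, 0)) ∨
    (p.d % 2 ≠ b ∧ mv b ε p = (⟨((p.d : ℤ) - ε).toNat, cons ε p.s⟩, 1)) := by
  by_cases h1 : p.d % 2 = b
  · by_cases h2 : term p
    · left; simp [mv, h1, h2]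
    · by_cases h3 : p.s 0 + ε = 0
      · right; left
        refine ⟨h1, h2, h3, by simp [mv, h1, h2, h3], ?_⟩
        simp only [sh, if_neg h2, Pt.mk.injEq, and_true]
        split_ifs <;> omega
      · right; right; left
        simp [mv, h1, h2, h3]
  · right; right; right
    refine ⟨h1, ?_⟩
    simp only [mv, if_neg h1, Prod.mk.injEq, Pt.mk.injEq, and_true]
    split_ifs <;> omega

lemma mv_not_hi {ε : ℤ} (hε : ε = 1 ∨ ε = -1) {p : Pt} (hp : ¬ Hi p) : ¬ Hi (mv 1 ε p).1 := by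
  rcases mv_cases 1 hε p with ⟨h1, h2, h3⟩ | ⟨h1, h2, h3, h4, h5⟩ | ⟨h1, h2, h3, h4⟩ | ⟨h1, h3⟩
  · rw [h3]; exact hp
  · rw [h4, h5]; unfold Hi term at *; simp only; omega
  · rw [h4]; unfold Hi term at *; simp only [cons_zero]; omega
  · rw [h3]; unfold Hi at *; simp only [cons_zero]; omega

lemma mv_mono {b : ℕ} {ε : ℤ} (hε : ε = 1 ∨ ε = -1) {p q : Pt} (hb : b = 0 ∨ (b = 1 ∧ ¬ Hi q))
    (h : p < q) : (mv b ε p).1 < (mv b ε q).1 := by
  have hp : b = 0 ∨ (b = 1 ∧ ¬ Hi p) := hb.imp id fun h' => ⟨h'.1, not_hi_of_lt h h'.2⟩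
  have h0 := h
  rw [lt_iff] at h
  unfold Hi at hb hp
  rcases mv_cases b hε p with ⟨h1, h2, h3⟩ | ⟨h1, h2, h3, h4, h5⟩ | ⟨h1, h2, h3, h4⟩ | ⟨h1, h3⟩ <;>
  rcases mv_cases b hε q with ⟨g1, g2, g3⟩ | ⟨g1, g2, g3, g4, g5⟩ | ⟨g1, g2, g3, g4⟩ | ⟨g1, g3⟩ <;>
  simp only [*]
  all_goals try unfold term at *
  all_goals unfold slt at h
  · rw [lt_def]; left; simp only; omega
  · rw [lt_iff]; simp only [cons_zero, slt]; omega
  · rw [lt_iff]; simp only [cons_zero, slt]; omega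
  · rw [lt_def]; left; simp only; omega
  · rw [lt_def]
    rcases h with h | ⟨h, h' | ⟨h', h''⟩⟩
    · left; simp only; omega
    · omega
    · right; exact ⟨by simp only; omega, h''⟩
  · rw [lt_def]; left; simp only; omega
  · rw [lt_def]; left; simp only; omega
  · rw [lt_iff]; simp only [cons_zero, slt]; omega
  · rw [lt_def]; left; simp only; omega
  · rw [lt_iff]
    rcases h with h | ⟨h, h' | ⟨h', h''⟩⟩
    · left; exact h
    · right; refine ⟨h, Or.inl ?_⟩
      simp only [cons_zero, slt]; omega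
    · right; refine ⟨h, Or.inr ⟨?_, h''⟩⟩
      simp only [cons_zero]; omega
  · rw [lt_iff]; simp only [cons_zero, slt]; omega
  · rw [lt_iff]; simp only [cons_zero, slt]; omega
  · rw [lt_def]; left; simp only; omega
  · rw [lt_iff]; simp only [cons_zero, slt]; omega
  · rw [lt_def] at h0
    rw [lt_iff]
    rcases h0 with h0 | ⟨h0, h0'⟩
    · left; simp only; omega
    · right; exact ⟨by simp only; omega, Or.inr ⟨rfl, h0'⟩⟩

lemma mv_inv {b : ℕ} {ε : ℤ} (hε : ε = 1 ∨ ε = -1) {p : Pt} (hb : b = 0 ∨ (b = 1 ∧ ¬ Hi p)) :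
    mv b (-ε) (mv b ε p).1 = (p, -(mv b ε p).2) := by
  obtain ⟨d, s⟩ := p
  have hs := cons_tl s
  unfold Hi at hb
  by_cases h1 : d % 2 = b
  · by_cases h2 : term ⟨d, s⟩
    · simp [mv, h1, h2]
    · by_cases h3 : s 0 + ε = 0
      · have h4 : mv b ε ⟨d, s⟩ = (⟨if 0 < s 0 then d + 1 else d - 1, tl s⟩, -1) := by
          simp [mv, sh, h1, h2, h3]
        rw [h4]
        unfold term at h2
        simp only at h2 hb
        have h5 : ¬ (if 0 < s 0 then d + 1 else d - 1) % 2 = b := by split_ifs <;> omega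
        have h6 : -ε = s 0 := by omega
        simp only [mv, if_neg h5, h6, hs, neg_neg, Prod.mk.injEq, Pt.mk.injEq, and_true]
        split_ifs <;> omega
      · have h4 : mv b ε ⟨d, s⟩ = (⟨d, cons (s 0 + ε) (tl s)⟩, 0) := by
          simp [mv, h1, h2, h3]
        rw [h4]
        have h5 : ¬ term ⟨d, cons (s 0 + ε) (tl s)⟩ := by
          unfold term at *
          simp only [cons_zero] at *
          omega
        have h6 : ¬ s 0 = 0 := by
          unfold term at h2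
          simp only at h2
          omega
        simp [mv, h1, h5, h6, hs]
  · have h4 : mv b ε ⟨d, s⟩ = (⟨if ε = 1 then d - 1 else d + 1, cons ε s⟩, 1) := by
      simp [mv, h1]
    rw [h4]
    simp only at hb
    have h5 : (if ε = 1 then d - 1 else d + 1) % 2 = b := by split_ifs <;> omega
    have h6 : ¬ term ⟨if ε = 1 then d - 1 else d + 1, cons ε s⟩ := by
      unfold term
      simp only [cons_zero]
      by_cases h7 : ε = 1
      · rw [h7]; omega
      · rw [if_neg h7]; omega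
    simp only [mv, if_pos h5, if_neg h6, cons_zero, add_neg_cancel, if_true, sh, tl_cons,
      Prod.mk.injEq, Pt.mk.injEq, and_true]
    split_ifs <;> omega

lemma mv_depth (b : ℕ) (ε : ℤ) (p : Pt) : p.d ≤ (mv b ε p).1.d + 1 := by
  unfold mv sh
  split_ifs <;> simp only <;> omega

/-- points of the cap -/
def E (n : ℕ) (u : ℕ → ℤ) : Pt := if n = 0 then ⟨0, u⟩ else ⟨1, cons (-(n : ℤ)) u⟩

lemma hi_E (n : ℕ) (u : ℕ → ℤ) : Hi (E n u) := by
  unfold E Hi
  split_ifs
  · simp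
  · simp only [cons_zero, true_and]; omega

/-- order in the cap -/
def ord (p : Pt) : ℕ := if p.d = 0 then 0 else (-p.s 0).toNat

/-- base in the cap -/
def base (p : Pt) : ℕ → ℤ := if p.d = 0 then p.s else tl p.s

@[simp] lemma ord_E (n : ℕ) (u : ℕ → ℤ) : ord (E n u) = n := by
  unfold E ord
  by_cases h : n = 0 <;> simp [h]

@[simp] lemma base_E (n : ℕ) (u : ℕ → ℤ) : base (E n u) = u := by
  unfold E base
  by_cases h : n = 0 <;> simp [h]

lemma E_ord_base {p : Pt} (hp : Hi p) : E (ord p) (base p) = p := by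
  obtain ⟨d, s⟩ := p
  unfold Hi at hp
  simp only at hp
  rcases hp with rfl | ⟨rfl, hp⟩
  · simp [E, ord, base]
  · have h1 : (-s 0).toNat ≠ 0 := by omega
    have h2 : -(((-s 0).toNat : ℕ) : ℤ) = s 0 := by omega
    simp only [E, ord, base, one_ne_zero, if_false, h1, h2, cons_tl]

lemma E_lt_iff (m n : ℕ) (v u : ℕ → ℤ) : E m v < E n u ↔ n < m ∨ (m = n ∧ lex v u) := by
  unfold E
  by_cases l : lex v u <;> split_ifs
  · rw [lt_def]; simp only [l, and_true, or_true, true_iff]; omega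
  · rw [lt_def]; simp only; omega
  · rw [lt_def]; simp only; omega
  · rw [lt_iff]; simp only [cons_zero, tl_cons, l, slt, and_true, true_and]; omega
  · rw [lt_def]; simp only [l, and_false, or_false]; omega
  · rw [lt_def]; simp only; omega
  · rw [lt_def]; simp only; omega
  · rw [lt_iff]; simp only [cons_zero, tl_cons, l, slt, and_false, or_false, true_and]; omega

/-- the top point -/
def top : Pt := ⟨0, fun _ => -1⟩

lemma le_top' (p : Pt) : p ≤ top := by
  rw [← not_lt, lt_def]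
  rintro (h | ⟨-, i, -, h⟩)
  · simp [top] at h
  · simp only [top, slt] at h
    omega

lemma exists_sglb (S : Set ℤ) : ∃ z : ℤ, (∀ a ∈ S, ¬ slt a z) ∧
    ∀ w, (∀ a ∈ S, ¬ slt a w) → ¬ slt z w := by
  classical
  by_cases h1 : ∃ n : ℕ, 0 < n ∧ (n : ℤ) ∈ S
  · refine ⟨(Nat.find h1 : ℕ), fun a ha hl => ?_, fun w hw => hw _ (Nat.find_spec h1).2⟩
    have h2 := (Nat.find_spec h1).1
    have h3 : 0 < a ∧ a < (Nat.find h1 : ℕ) := by unfold slt at hl; omega
    refine Nat.find_min h1 (m := a.toNat) (by omega) ⟨by omega, ?_⟩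
    rwa [Int.toNat_of_nonneg h3.1.le]
  · have hS : ∀ a ∈ S, a ≤ 0 := by
      intro a ha
      by_contra hc
      exact h1 ⟨a.toNat, by omega, by rwa [Int.toNat_of_nonneg (by omega)]⟩
    by_cases h2 : ∃ b : ℤ, b < 0 ∧ ∀ a ∈ S, b ≤ a ∧ a < 0
    · obtain ⟨b, hb, hb'⟩ := h2
      by_cases h3 : S.Nonempty
      · obtain ⟨z, hz, hz'⟩ := Int.exists_least_of_bdd (P := fun a => a ∈ S)
          ⟨b, fun a ha => (hb' a ha).1⟩ h3
        refine ⟨z, fun a ha hl => ?_, fun w hw => hw z hz⟩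
        have := hz' a ha
        have := hb' a ha
        unfold slt at hl; omega
      · refine ⟨-1, fun a ha => absurd ⟨a, ha⟩ h3, fun w _ => ?_⟩
        unfold slt; omega
    · refine ⟨0, fun a ha hl => ?_, fun w hw hl => h2 ⟨w, ?_, fun a ha => ?_⟩⟩
      · have := hS a ha
        unfold slt at hl; omega
      · unfold slt at hl; omega
      · have := hS a ha
        have := hw a ha
        unfold slt at *; omega

lemma exists_seq_rec {α : Type*} [Inhabited α] (Q : ℕ → (ℕ → α) → α → Prop)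
    (hQ : ∀ k f, ∃ a, Q k f a)
    (hc : ∀ k f g a, (∀ j < k, f j = g j) → Q k f a → Q k g a) : ∃ f : ℕ → α, ∀ k, Q k f (f k) := by
  classical
  choose F hF using hQ
  let g : ℕ → (ℕ → α) := fun k => Nat.rec (fun _ => default)
    (fun k gk => Function.update gk k (F k gk)) k
  have hg : ∀ k, g (k + 1) = Function.update (g k) k (F k (g k)) := fun k => rfl
  have hgf : ∀ k, ∀ j < k, g k j = F j (g j) := by
    intro k
    induction k with
    | zero => intro j hj; omega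
    | succ k ih =>
      intro j hj
      rw [hg]
      by_cases hjk : j = k
      · subst hjk; rw [Function.update_self]
      · rw [Function.update_of_ne hjk]; exact ih j (by omega)
  exact ⟨fun k => F k (g k), fun k => hc k (g k) _ _ (hgf k) (hF k (g k))⟩

lemma exists_lglb (S : Set (ℕ → ℤ)) : ∃ z : ℕ → ℤ, (∀ a ∈ S, ¬ lex a z) ∧
    ∀ w, (∀ a ∈ S, ¬ lex a w) → ¬ lex z w := by
  obtain ⟨z, hz⟩ := exists_seq_rec (α := ℤ)
    (fun k f x => (∀ a ∈ S, (∀ j < k, a j = f j) → ¬ slt (a k) x) ∧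
      ∀ w, (∀ a ∈ S, (∀ j < k, a j = f j) → ¬ slt (a k) w) → ¬ slt x w)
    (fun k f => by
      obtain ⟨x, h1, h2⟩ := exists_sglb {y | ∃ a ∈ S, (∀ j < k, a j = f j) ∧ a k = y}
      refine ⟨x, fun a ha hj => h1 _ ⟨a, ha, hj, rfl⟩, fun w hw => h2 w ?_⟩
      rintro _ ⟨a, ha, hj, rfl⟩
      exact hw a ha hj)
    (fun k f g x hfg hQ => by
      have : ∀ a : ℕ → ℤ, (∀ j < k, a j = f j) ↔ (∀ j < k, a j = g j) := fun a =>
        ⟨fun h j hj => (h j hj).trans (hfg j hj), fun h j hj => (h j hj).trans (hfg j hj).symm⟩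
      simpa only [this] using hQ)
  refine ⟨z, ?_, ?_⟩
  · rintro a ha ⟨i, h1, h2⟩
    exact (hz i).1 a ha h1 h2
  · rintro w hw ⟨i, h1, h2⟩
    refine (hz i).2 (w i) (fun a ha hj hl => hw a ha ⟨i, fun j hji => ?_, hl⟩) h2
    exact (hj j hji).trans (h1 j hji)

lemma exists_glb (S : Set Pt) (hS : S.Nonempty) (z1 : Pt) (h1 : ∀ z ∈ S, z1 < z) :
    ∃ z0 : Pt, (∀ z ∈ S, z0 ≤ z) ∧ ∀ w, (∀ z ∈ S, w ≤ z) → w ≤ z0 := by
  classical
  have hb : ∀ z ∈ S, z.d ≤ z1.d := fun z hz => by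
    have := h1 z hz
    rw [lt_def] at this
    omega
  have hex : ∃ n, ∀ z ∈ S, z.d ≤ n := ⟨_, hb⟩
  set D := Nat.find hex with hD
  have hD1 : ∀ z ∈ S, z.d ≤ D := Nat.find_spec hex
  have hD2 : ∃ z ∈ S, z.d = D := by
    by_contra hc
    push Not at hc
    obtain ⟨z, hz⟩ := hS
    have h0 : 0 < D := by
      have := hD1 z hz
      have := hc z hz
      omega
    refine Nat.find_min hex (m := D - 1) (by omega) fun y hy => ?_
    have := hD1 y hy
    have := hc y hy
    omega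
  obtain ⟨s, hs1, hs2⟩ := exists_lglb {s | (⟨D, s⟩ : Pt) ∈ S}
  refine ⟨⟨D, s⟩, fun z hz => ?_, fun w hw => ?_⟩
  · rw [← not_lt, lt_def]
    rintro (h | ⟨h, h'⟩)
    · have := hD1 z hz
      simp only at h
      omega
    · refine hs1 z.s ?_ h'
      simp only at h
      show (⟨D, z.s⟩ : Pt) ∈ S
      rw [← h]
      exact hz
  · rw [← not_lt, lt_def]
    rintro (h | ⟨h, h'⟩)
    · obtain ⟨z, hz, hzD⟩ := hD2
      have := hw z hz
      rw [← not_lt, lt_def] at this
      simp only at h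
      omega
    · refine hs2 w.s (fun a ha hl => ?_) h'
      have := hw _ ha
      rw [← not_lt, lt_def] at this
      exact this (Or.inr ⟨h, hl⟩)

end Pool.Agent.H223Z.FG
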