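import Pool.Agent.H223Z.FG.Pt

/-!
The module spanned by the points, over Laurent polynomials, with the action of the group algebra
of the free group of rank two.
-/

set_option autoImplicit false

namespace Pool.Agent.H223Z.FG

open LaurentPolynomial

variable (k : Type) [Field k]

/-- the module -/
abbrev V : Type := Pt →₀ LaurentPolynomial k

/-- the free group of rank two -/
abbrev G2 : Type := FreeGroup Bool

/-- its group algebra -/
abbrev A : Type := MonoidAlgebra k G2

/-- endomorphisms -/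
abbrev En : Type := Module.End (LaurentPolynomial k) (V k)

/-- length of a point of the cap over its base -/
def w (n : ℕ) : ℤ := if n = 0 then 0 else 1

/-- basis vectors in the cap -/
noncomputable def ev (n : ℕ) (u : ℕ → ℤ) : V k := Finsupp.single (E n u) (T (w n))

/-- image of a basis vector under a permutation move -/
noncomputable def gimg (b : ℕ) (ε : ℤ) (p : Pt) : V k :=
  Finsupp.single (mv b ε p).1 (T (mv b ε p).2)

/-- image under the second generator -/
noncomputable def yimg (p : Pt) : V k :=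
  if Hi p then (T (-w (ord p)) : LaurentPolynomial k) • (ev k (ord p) (base p) +
    ev k (ord p + 1) (base p) + if ord p % 2 = 1 then ev k (ord p + 2) (base p) else 0)
  else gimg k 1 1 p

/-- image under the inverse of the second generator -/
noncomputable def yimg' (p : Pt) : V k :=
  if Hi p then (T (-w (ord p)) : LaurentPolynomial k) • (ev k (ord p) (base p) -
    ev k (ord p + 1) (base p) + if ord p % 2 = 1 then 0 else ev k (ord p + 2) (base p))
  else gimg k 1 (-1) p

/-- the endomorphism with given images of the basis vectors -/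
noncomputable def op (f : Pt → V k) : En k := Finsupp.linearCombination (LaurentPolynomial k) f

variable {k}

lemma op_single (f : Pt → V k) (p : Pt) (c : LaurentPolynomial k) :
    op k f (Finsupp.single p c) = c • f p := Finsupp.linearCombination_single _ _ _

lemma single_eq_smul (p : Pt) (c : LaurentPolynomial k) :
    (Finsupp.single p c : V k) = c • Finsupp.single p 1 := by simp

lemma T_smul_T (a b : ℤ) (v : V k) :
    (T a : LaurentPolynomial k) • (T b : LaurentPolynomial k) • v = (T (a + b) : LaurentPolynomial k) • v := by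
  rw [smul_smul, T_add]

lemma en_ext {M N : En k} (h : ∀ p, M (Finsupp.single p 1) = N (Finsupp.single p 1)) : M = N := by
  refine Finsupp.lhom_ext fun p c => ?_
  rw [single_eq_smul, map_smul, map_smul, h]

lemma single_hi {p : Pt} (hp : Hi p) :
    (Finsupp.single p 1 : V k) = (T (-w (ord p)) : LaurentPolynomial k) • ev k (ord p) (base p) := by
  rw [ev, E_ord_base hp, Finsupp.smul_single, smul_eq_mul, ← T_add, neg_add_cancel, T_zero]

lemma Y_ev (n : ℕ) (u : ℕ → ℤ) : op k (yimg k) (ev k n u) =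
    ev k n u + ev k (n + 1) u + if n % 2 = 1 then ev k (n + 2) u else 0 := by
  conv_lhs => rw [ev]
  rw [op_single, yimg, if_pos (hi_E n u), ord_E, base_E, T_smul_T, add_neg_cancel, T_zero, one_smul]

lemma Y'_ev (n : ℕ) (u : ℕ → ℤ) : op k (yimg' k) (ev k n u) =
    ev k n u - ev k (n + 1) u + if n % 2 = 1 then 0 else ev k (n + 2) u := by
  conv_lhs => rw [ev]
  rw [op_single, yimg', if_pos (hi_E n u), ord_E, base_E, T_smul_T, add_neg_cancel, T_zero, one_smul]

lemma gimg_inv {b : ℕ} {ε : ℤ} (hε : ε = 1 ∨ ε = -1) {p : Pt} (hb : b = 0 ∨ (b = 1 ∧ ¬ Hi p)) :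
    (T (mv b ε p).2 : LaurentPolynomial k) • gimg k b (-ε) (mv b ε p).1 = Finsupp.single p 1 := by
  rw [gimg, mv_inv hε hb, Finsupp.smul_single, smul_eq_mul, ← T_add, add_neg_cancel, T_zero]

lemma XX' : op k (gimg k 0 1) * op k (gimg k 0 (-1)) = 1 := by
  refine en_ext fun p => ?_
  rw [Module.End.mul_apply, op_single, one_smul, gimg, op_single]
  exact gimg_inv (ε := -1) (Or.inr rfl) (Or.inl rfl)

lemma X'X : op k (gimg k 0 (-1)) * op k (gimg k 0 1) = 1 := by
  refine en_ext fun p => ?_
  rw [Module.End.mul_apply, op_single, one_smul, gimg, op_single]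
  exact gimg_inv (ε := 1) (Or.inl rfl) (Or.inl rfl)

lemma YY' : op k (yimg k) * op k (yimg' k) = 1 := by
  refine en_ext fun p => ?_
  rw [Module.End.mul_apply, Module.End.one_apply]
  by_cases hp : Hi p
  · rw [single_hi hp, map_smul, map_smul, Y'_ev]
    congr 1
    by_cases h : ord p % 2 = 1
    · have h1 : ¬ (ord p + 1) % 2 = 1 := by omega
      simp only [h, h1, if_true, if_false, map_add, map_sub, Y_ev, map_zero]
      abel
    · have h1 : (ord p + 1) % 2 = 1 := by omega
      have h2 : ¬ (ord p + 2) % 2 = 1 := by omega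
      simp only [h, h1, h2, if_true, if_false, map_add, map_sub, Y_ev]
      abel
  · rw [op_single, one_smul, yimg', if_neg hp, gimg, op_single, yimg,
      if_neg (mv_not_hi (Or.inr rfl) hp)]
    exact gimg_inv (ε := -1) (Or.inr rfl) (Or.inr ⟨rfl, hp⟩)

lemma Y'Y : op k (yimg' k) * op k (yimg k) = 1 := by
  refine en_ext fun p => ?_
  rw [Module.End.mul_apply, Module.End.one_apply]
  by_cases hp : Hi p
  · rw [single_hi hp, map_smul, map_smul, Y_ev]
    congr 1
    by_cases h : ord p % 2 = 1
    · have h1 : ¬ (ord p + 1) % 2 = 1 := by omega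
      have h2 : (ord p + 2) % 2 = 1 := by omega
      simp only [h, h1, h2, if_true, if_false, map_add, Y'_ev]
      abel
    · have h1 : (ord p + 1) % 2 = 1 := by omega
      simp only [h, h1, if_true, if_false, map_add, Y'_ev, map_zero]
      abel
  · rw [op_single, one_smul, yimg, if_neg hp, gimg, op_single, yimg',
      if_neg (mv_not_hi (Or.inl rfl) hp)]
    exact gimg_inv (ε := 1) (Or.inl rfl) (Or.inr ⟨rfl, hp⟩)

variable (k)

/-- the representation of the free group -/
noncomputable def rho0 : G2 →* (En k)ˣ :=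
  FreeGroup.lift fun b => if b then ⟨op k (yimg k), op k (yimg' k), YY', Y'Y⟩
    else ⟨op k (gimg k 0 1), op k (gimg k 0 (-1)), XX', X'X⟩

/-- the representation of the group algebra -/
noncomputable def rho : A k →ₐ[k] En k :=
  MonoidAlgebra.lift k (En k) G2 ((Units.coeHom _).comp (rho0 k))

/-- group elements in the group algebra -/
noncomputable def sg : G2 →* A k := MonoidAlgebra.of k G2

/-- the letter of a depth -/
def gen (d : ℕ) : G2 := FreeGroup.of (decide (d % 2 = 1))

/-- the span of the points below a point -/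
noncomputable def Flt (ψ : Pt) : Submodule (LaurentPolynomial k) (V k) :=
  Finsupp.supported _ _ {p | p < ψ}

/-- the span of the points up to a point -/
noncomputable def Fle (ψ : Pt) : Submodule (LaurentPolynomial k) (V k) :=
  Finsupp.supported _ _ {p | p ≤ ψ}

variable {k}

lemma rho_sg (g : G2) : rho k (sg k g) = rho0 k g := by
  simp [rho, sg]

lemma rho_y : rho k (sg k (gen 1)) = op k (yimg k) := by
  rw [rho_sg]; simp [rho0, gen]

lemma rho_y' : rho k (sg k (gen 1)⁻¹) = op k (yimg' k) := by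
  rw [rho_sg, map_inv]; simp [rho0, gen]

lemma rho_x : rho k (sg k (gen 0)) = op k (gimg k 0 1) := by
  rw [rho_sg]; simp [rho0, gen]

lemma rho_x' : rho k (sg k (gen 0)⁻¹) = op k (gimg k 0 (-1)) := by
  rw [rho_sg, map_inv]; simp [rho0, gen]

lemma rho_gen {b : ℕ} {ε : ℤ} (hε : ε = 1 ∨ ε = -1) {p : Pt} (hb : b = 0 ∨ (b = 1 ∧ ¬ Hi p)) :
    rho k (sg k (gen b ^ ε)) (Finsupp.single p 1) = gimg k b ε p := by
  rcases hb with rfl | ⟨rfl, hp⟩ <;> rcases hε with rfl | rfl
  · rw [zpow_one, rho_x, op_single, one_smul]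
  · rw [zpow_neg_one, rho_x', op_single, one_smul]
  · rw [zpow_one, rho_y, op_single, one_smul, yimg, if_neg hp]
  · rw [zpow_neg_one, rho_y', op_single, one_smul, yimg', if_neg hp]

lemma map_supported (M : En k) (S : Set Pt) (N : Submodule (LaurentPolynomial k) (V k))
    (h : ∀ p ∈ S, M (Finsupp.single p 1) ∈ N) :
    ∀ v ∈ Finsupp.supported (LaurentPolynomial k) (LaurentPolynomial k) S, M v ∈ N := by
  intro v hv
  rw [Finsupp.supported_eq_span_single] at hv
  refine Submodule.span_induction (p := fun v _ => M v ∈ N) ?_ ?_ ?_ ?_ hv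
  · rintro _ ⟨p, hp, rfl⟩
    exact h p hp
  · simp
  · intro x y _ _ hx hy
    rw [map_add]; exact N.add_mem hx hy
  · intro c x _ hx
    rw [map_smul]; exact N.smul_mem c hx

lemma mem_Flt {ψ : Pt} {v : V k} : v ∈ Flt k ψ ↔ ∀ p, v p ≠ 0 → p < ψ := by
  rw [Flt, Finsupp.mem_supported]
  exact ⟨fun h p hp => h (Finsupp.mem_support_iff.2 hp),
    fun h p hp => h p (Finsupp.mem_support_iff.1 hp)⟩

lemma mem_Fle {ψ : Pt} {v : V k} : v ∈ Fle k ψ ↔ ∀ p, v p ≠ 0 → p ≤ ψ := by
  rw [Fle, Finsupp.mem_supported]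
  exact ⟨fun h p hp => h (Finsupp.mem_support_iff.2 hp),
    fun h p hp => h p (Finsupp.mem_support_iff.1 hp)⟩

lemma single_mem_Flt {ψ p : Pt} (h : p < ψ) (c : LaurentPolynomial k) :
    Finsupp.single p c ∈ Flt k ψ := Finsupp.single_mem_supported _ _ h

lemma single_mem_Fle {ψ p : Pt} (h : p ≤ ψ) (c : LaurentPolynomial k) :
    Finsupp.single p c ∈ Fle k ψ := Finsupp.single_mem_supported _ _ h

lemma Flt_mono {ψ φ : Pt} (h : ψ ≤ φ) : Flt k ψ ≤ Flt k φ :=
  Finsupp.supported_mono fun _ hp => lt_of_lt_of_le hp h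

lemma Flt_le_Fle (ψ : Pt) : Flt k ψ ≤ Fle k ψ :=
  Finsupp.supported_mono fun p hp => (le_of_lt (show p < ψ from hp) : p ≤ ψ)

lemma gen_mono {b : ℕ} {ε : ℤ} (hε : ε = 1 ∨ ε = -1) {ψ : Pt} (hb : b = 0 ∨ (b = 1 ∧ ¬ Hi ψ)) :
    ∀ v ∈ Flt k ψ, rho k (sg k (gen b ^ ε)) v ∈ Flt k (mv b ε ψ).1 := by
  refine map_supported _ _ _ fun p hp => ?_
  rw [rho_gen hε (hb.imp id fun h' => ⟨h'.1, not_hi_of_lt hp h'.2⟩)]
  exact single_mem_Flt (mv_mono hε hb hp) _

lemma ev_mem {m n : ℕ} {v u : ℕ → ℤ} (h : E m v < E n u) (i j : ℕ) (hij : j ≤ i) :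
    ev k (m + i) v ∈ Flt k (E (n + j) u) := by
  refine single_mem_Flt ?_ _
  rw [E_lt_iff] at *
  rcases h with h | ⟨h, h'⟩
  · left; omega
  · by_cases h2 : i = j
    · right; exact ⟨by omega, h'⟩
    · left; omega

lemma eta_mono (n : ℕ) (u : ℕ → ℤ) :
    ∀ v ∈ Flt k (E n u), rho k (sg k (gen 1) - 1) v ∈ Flt k (E (n + 1) u) := by
  refine map_supported _ _ _ fun p hp => ?_
  rw [map_sub, map_one, LinearMap.sub_apply, Module.End.one_apply, rho_y]
  by_cases h : Hi p
  · rw [single_hi h, map_smul, ← smul_sub, Y_ev]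
    refine Submodule.smul_mem _ _ ?_
    have hp' : E (ord p) (base p) < E n u := by rw [E_ord_base h]; exact hp
    rw [add_assoc, add_sub_cancel_left]
    refine Submodule.add_mem _ (ev_mem hp' 1 1 le_rfl) ?_
    split_ifs
    · exact ev_mem hp' 2 1 (by omega)
    · exact Submodule.zero_mem _
  · rw [op_single, one_smul, yimg, if_neg h]
    exact Submodule.sub_mem _ (single_mem_Flt (lt_of_not_hi (mv_not_hi (Or.inl rfl) h) (hi_E _ _)) _)
      (single_mem_Flt (lt_of_not_hi h (hi_E _ _)) _)

lemma yinv_mono (n : ℕ) (u : ℕ → ℤ) :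
    ∀ v ∈ Flt k (E n u), rho k (sg k (gen 1)⁻¹) v ∈ Flt k (E n u) := by
  refine map_supported _ _ _ fun p hp => ?_
  rw [rho_y']
  by_cases h : Hi p
  · rw [single_hi h, map_smul, Y'_ev]
    refine Submodule.smul_mem _ _ ?_
    have hp' : E (ord p) (base p) < E n u := by rw [E_ord_base h]; exact hp
    refine Submodule.add_mem _ (Submodule.sub_mem _ (ev_mem hp' 0 0 le_rfl)
      (ev_mem hp' 1 0 (by omega))) ?_
    split_ifs
    · exact Submodule.zero_mem _
    · exact ev_mem hp' 2 0 (by omega)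
  · rw [op_single, one_smul, yimg', if_neg h]
    exact single_mem_Flt (lt_of_not_hi (mv_not_hi (Or.inr rfl) h) (hi_E _ _)) _

end Pool.Agent.H223Z.FG
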